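import Pool.Agent.H15.HLU.Targets

/-!
# Homogeneous latin squares, uniform version: row FIN
-/

namespace Pool.Agent.H38.HLU

open Pool.Agent.H51.Homog Pool.Agent.H22.HSQ Pool.Agent.H15.HLS Pool.Agent.H15.HLU

/-- all large orders in one residue class -/
theorem pf_FIN (hGL2 : T_GL2) (hREP : T_REP) : T_FIN := by
  intro h s₁ s₂ w t Y n o1 o2 ow hs1 hs2 hw d1 d2 ot hg hst htY hmod hle
  obtain ⟨a₁, a₂, ha⟩ := hREP s₁ s₂ t hs1 hs2 hg hst
  have h1 : a₁ ≤ a₁ * s₁ := Nat.le_mul_of_pos_right _ hs1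
  have h2 : a₂ ≤ a₂ * s₂ := Nat.le_mul_of_pos_right _ hs2
  have hat : a₁ + a₂ ≤ Y := by omega
  set k : ℕ := 30 * w + 1 with hk
  have hkt : k * t ≤ k * Y := Nat.mul_le_mul_left _ htY
  have hkn : k * t + w ≤ n := by omega
  have hm : k * t + w ≡ n [MOD 30 * w] := by
    calc k * t + w = (t + w) + 30 * w * t := by rw [hk]; ring
      _ ≡ t + w [MOD 30 * w] := by simp [Nat.ModEq]
      _ ≡ n [MOD 30 * w] := hmod
  obtain ⟨u, hu⟩ := (Nat.modEq_iff_dvd' hkn).1 hm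
  have hn' : n = w * (30 * u + 1) + k * (a₁ * s₁ + a₂ * s₂) := by
    rw [← ha]
    have e1 : n = 30 * w * u + (k * t + w) := by omega
    rw [e1]
    ring
  have hkodd : Odd k := ⟨15 * w, by rw [hk]; ring⟩
  rw [hn']
  refine hGL2 h s₁ s₂ w k a₁ a₂ (30 * u + 1) o1 o2 ow hs1 hs2 d1 d2 (by omega) hkodd
    (ha ▸ ot) ?_ ?_
  · have : Nat.gcd (30 * u + 1) 30 = 1 := by
      rw [Nat.gcd_comm, Nat.gcd_rec]
      simp [Nat.add_mod]
    exact this
  · by_contra hlt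
    push Not at hlt
    have e2 : k * (a₁ + a₂) ≤ k * (2 * Y) := Nat.mul_le_mul_left _ (by omega)
    have e3 : (k * (a₁ + a₂) + 1) ^ 3 ≤ (k * (2 * Y) + 1) ^ 3 := Nat.pow_le_pow_left (by omega) 3
    have e4 : w * (30 * u + 1) ≤ w * (16 * (k * (2 * Y) + 1) ^ 3) :=
      Nat.mul_le_mul_left w (hlt.trans (Nat.mul_le_mul_left _ e3))
    rw [← ha] at hn'
    have e5 : w * (16 * (k * (2 * Y) + 1) ^ 3 + 31) = w * (16 * (k * (2 * Y) + 1) ^ 3) + w * 31 := by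
      ring
    rw [e5] at hle
    omega

end Pool.Agent.H38.HLU
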