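import Pool.Agent.H15.HLU.Targets

/-!
# Homogeneous latin squares, uniform version: row RE2
-/

namespace Pool.Agent.H38.HLU

open Pool.Agent.H15.HLU

theorem re2_bound {τ x : ℕ} (hx : x < τ) : 3 * (x + 4 * τ * x ^ 2) ≤ 3 * (τ + 4 * τ ^ 3) := by
  have h1 : x ^ 2 ≤ τ ^ 2 := Nat.pow_le_pow_left hx.le 2
  have h2 : 4 * τ * x ^ 2 ≤ 4 * τ * τ ^ 2 := Nat.mul_le_mul_left _ h1
  have h3 : 4 * τ * τ ^ 2 = 4 * τ ^ 3 := by ring
  rw [h3] at h2
  omega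

theorem re2_big (τ : ℕ) : 3 * (τ + 4 * τ ^ 3) ≤ 16 * (τ + 1) ^ 3 := by
  have : 16 * (τ + 1) ^ 3 = 3 * (τ + 4 * τ ^ 3) + (4 * τ ^ 3 + 48 * τ ^ 2 + 45 * τ + 16) := by ring
  rw [this]
  exact Nat.le_add_right _ _

theorem re2_nat {τ a b c : ℕ} (ha : a < τ) (hb : b < τ) (hc : c < τ)
    (h : (b + 4 * τ * b ^ 2) + 2 * (c + 4 * τ * c ^ 2) = 3 * (a + 4 * τ * a ^ 2)) :
    a = b ∧ b = c := by
  have h1 : (b + 2 * c) + 4 * τ * (b ^ 2 + 2 * c ^ 2) = 3 * a + 4 * τ * (3 * a ^ 2) := by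
    have e1 : (b + 2 * c) + 4 * τ * (b ^ 2 + 2 * c ^ 2) =
      (b + 4 * τ * b ^ 2) + 2 * (c + 4 * τ * c ^ 2) := by ring
    rw [e1, h]
    ring
  have h2 : b + 2 * c = 3 * a := by
    have e2 := congrArg (· % (4 * τ)) h1
    simp only [Nat.add_mul_mod_self_left] at e2
    rwa [Nat.mod_eq_of_lt (by omega), Nat.mod_eq_of_lt (by omega)] at e2
  have h3 : b ^ 2 + 2 * c ^ 2 = 3 * a ^ 2 := by
    rw [h2] at h1
    have h4 := Nat.add_left_cancel h1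
    exact Nat.eq_of_mul_eq_mul_left (by omega) h4
  zify at h2 h3
  have h5 : ((b : ℤ) - c) ^ 2 = 0 := by
    have e3 : ((b : ℤ) + 2 * c) ^ 2 = 9 * (a : ℤ) ^ 2 := by rw [h2]; ring
    linarith
  have h6 : (b : ℤ) = c := by
    have := pow_eq_zero_iff (n := 2) (by norm_num) |>.1 h5
    linarith
  constructor
  · have : (a : ℤ) = b := by linarith
    exact_mod_cast this
  · exact_mod_cast h6

/-- the numbers `x + 4 τ x ^ 2` satisfy the relation only trivially -/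
theorem pf_RE2 : T_RE2 := by
  intro τ v a b c hv ha hb hc h
  have h1 : (((b + 4 * τ * b ^ 2) + 2 * (c + 4 * τ * c ^ 2) : ℕ) : ZMod v) =
      ((3 * (a + 4 * τ * a ^ 2) : ℕ) : ZMod v) := by
    rw [Nat.cast_add, Nat.cast_mul 2, Nat.cast_mul 3]
    exact h
  rw [ZMod.natCast_eq_natCast_iff'] at h1
  have hA := re2_bound ha
  have hB := re2_bound hb
  have hC := re2_bound hc
  have hD := re2_big τ
  rw [Nat.mod_eq_of_lt (by omega), Nat.mod_eq_of_lt (by omega)] at h1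
  exact re2_nat ha hb hc h1

end Pool.Agent.H38.HLU
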